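import Mathlib

universe u

open Polynomial

namespace EtalePi

/-- the Artin-Schreier polynomial `X^p - X - a` -/
noncomputable def asPoly {R : Type u} [CommRing R] (p : ℕ) (a : R) : R[X] := X ^ p - (X + C a)

theorem asPoly_monic {R : Type u} [CommRing R] {p : ℕ} (hp : 1 < p) (a : R) :
    (asPoly p a).Monic := by
  nontriviality R
  refine (monic_X_pow p).sub_of_left ?_
  rw [degree_X_pow, degree_X_add_C]
  exact_mod_cast hp

theorem asPoly_derivative {R : Type u} [CommRing R] {p : ℕ} (a : R) (h : (p : R) = 0) :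
    derivative (asPoly p a) = -1 := by
  have h' : (C (p : R) : R[X]) = 0 := by rw [h, C_0]
  simp only [asPoly, derivative_sub, derivative_X_pow, derivative_add, derivative_X,
    derivative_C, h', zero_mul, add_zero, zero_sub]

theorem as_finite {R : Type u} [CommRing R] {p : ℕ} (hp : 1 < p) (a : R) :
    Module.Finite R (AdjoinRoot (asPoly p a)) :=
  (AdjoinRoot.powerBasis' (asPoly_monic hp a)).finite

theorem as_etale {R : Type u} [CommRing R] {p : ℕ} (hp : 1 < p) (a : R) (h : (p : R) = 0) :
    Algebra.Etale R (AdjoinRoot (asPoly p a)) := by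
  let P : StandardEtalePair R :=
    { f := asPoly p a
      monic_f := asPoly_monic hp a
      g := 1
      cond := ⟨-1, 0, 1, by rw [asPoly_derivative a h]; simp⟩ }
  have e1 : P.Ring ≃ₐ[R] Localization.Away (AdjoinRoot.mk P.f P.g) := P.equivAwayAdjoinRoot
  have hu : IsUnit (AdjoinRoot.mk P.f P.g) := by
    change IsUnit (AdjoinRoot.mk P.f 1)
    rw [map_one]; exact isUnit_one
  have e2 : AdjoinRoot P.f ≃ₐ[AdjoinRoot P.f] Localization.Away (AdjoinRoot.mk P.f P.g) :=
    IsLocalization.atUnit _ _ _ hu
  have e3 : AdjoinRoot P.f ≃ₐ[R] Localization.Away (AdjoinRoot.mk P.f P.g) :=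
    e2.restrictScalars R
  exact Algebra.Etale.of_equiv (e1.trans e3.symm)

/-- In a field with an element of valuation `exp 1` for some valuation, that element is not of the
form `u^p - u`. -/
theorem not_as_of_valuation {L : Type u} [Field L] (v : Valuation L (WithZero (Multiplicative ℤ)))
    {β : L} (hβ : v β = WithZero.exp (1 : ℤ)) {p : ℕ} (hp : 1 < p) (u : L) : u ^ p - u ≠ β := by
  intro h
  have h1 : (1 : WithZero (Multiplicative ℤ)) < WithZero.exp (1 : ℤ) := by
    rw [← WithZero.exp_zero]
    exact WithZero.exp_lt_exp.2 (by norm_num)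
  rcases le_or_gt (v u) 1 with hu | hu
  · have : v (u ^ p - u) ≤ 1 := by
      refine (Valuation.map_sub _ _ _).trans (max_le ?_ hu)
      rw [map_pow]
      exact pow_le_one₀ zero_le hu
    rw [h, hβ] at this
    exact absurd this (not_le.2 h1)
  · have h2 : v u < v (u ^ p) := by
      rw [map_pow]
      calc v u = (v u) ^ 1 := (pow_one _).symm
        _ < (v u) ^ p := pow_lt_pow_right₀ hu hp
    have h3 : v (u ^ p - u) = v (u ^ p) := Valuation.map_sub_eq_of_lt_left _ h2
    rw [h, hβ, map_pow] at h3
    have hne : v u ≠ 0 := (lt_trans zero_lt_one hu).ne'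
    obtain ⟨n, hn⟩ : ∃ n : ℤ, v u = WithZero.exp n := ⟨WithZero.log (v u), by
      rw [WithZero.exp_log hne]⟩
    rw [hn, ← WithZero.exp_nsmul] at h3
    have h4 := WithZero.exp_injective h3
    have h5 : (p : ℤ) ∣ 1 := ⟨n, by rw [h4]; simp⟩
    have h6 := Int.natAbs_dvd_natAbs.2 h5
    simp at h6
    omega

end EtalePi
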