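import Mathlib

/-!
# Etale fundamental groups of affine schemes and Galois-fixed elements

For a commutative ring `R` and a ring homomorphism `p : R →+* Ω` into a separably closed
field (a geometric point of `Spec R`), `PiOne p` is the group of automorphisms of the fibre
functor of the category of finite etale `R`-algebras, i.e. the etale fundamental group of
`Spec R` at the geometric point `p` (as an abstract group).
-/

universe u

open TensorProduct

namespace EtalePi

/-- The geometric fibre over `p : R →+* Ω` of the cover `Spec B → Spec R`. -/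
def Fib {R Ω : Type u} [CommRing R] [Field Ω] (p : R →+* Ω)
    (B : Type u) [CommRing B] [Algebra R B] : Type u :=
  {f : B →+* Ω // f.comp (algebraMap R B) = p}

/-- The map on geometric fibres induced by a morphism of covers. -/
def Fib.pull {R Ω : Type u} [CommRing R] [Field Ω] {p : R →+* Ω}
    {B C : Type u} [CommRing B] [Algebra R B] [CommRing C] [Algebra R C]
    (f : Fib p C) (g : B →ₐ[R] C) : Fib p B :=
  ⟨f.1.comp g.toRingHom, by rw [RingHom.comp_assoc, AlgHom.toRingHom_eq_coe,
    AlgHom.comp_algebraMap, f.2]⟩

/-- The etale fundamental group of `Spec R` at the geometric point `p`: compatible families of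
permutations of the geometric fibres of all finite etale covers of `Spec R`. -/
@[ext] structure PiOne {R Ω : Type u} [CommRing R] [Field Ω] (p : R →+* Ω) : Type (u + 1) where
  /-- the permutation of the fibre of `Spec B` -/
  perm : ∀ (B : Type u) [CommRing B] [Algebra R B] [Module.Finite R B] [Algebra.Etale R B],
    Equiv.Perm (Fib p B)
  /-- naturality -/
  natural : ∀ (B C : Type u) [CommRing B] [Algebra R B] [Module.Finite R B] [Algebra.Etale R B]
    [CommRing C] [Algebra R C] [Module.Finite R C] [Algebra.Etale R C]
    (g : B →ₐ[R] C) (f : Fib p C), perm B (f.pull g) = (perm C f).pull g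

namespace PiOne

variable {R Ω : Type u} [CommRing R] [Field Ω] {p : R →+* Ω}

instance : Mul (PiOne p) where
  mul a b := ⟨fun B _ _ _ _ => a.perm B * b.perm B, by
    intro B C _ _ _ _ _ _ _ _ g f
    simp only [Equiv.Perm.mul_apply]
    rw [b.natural, a.natural]⟩

instance : One (PiOne p) where
  one := ⟨fun _ _ _ _ _ => 1, by intros; rfl⟩

instance : Inv (PiOne p) where
  inv a := ⟨fun B _ _ _ _ => (a.perm B)⁻¹, by
    intro B C _ _ _ _ _ _ _ _ g f
    rw [Equiv.Perm.inv_eq_iff_eq, a.natural]
    exact congrArg (Fib.pull · g) ((a.perm C).apply_symm_apply f).symm⟩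

theorem mul_perm (a b : PiOne p) (B : Type u) [CommRing B] [Algebra R B] [Module.Finite R B]
    [Algebra.Etale R B] : (a * b).perm B = a.perm B * b.perm B := rfl

theorem one_perm (B : Type u) [CommRing B] [Algebra R B] [Module.Finite R B]
    [Algebra.Etale R B] : (1 : PiOne p).perm B = 1 := rfl

theorem inv_perm (a : PiOne p) (B : Type u) [CommRing B] [Algebra R B] [Module.Finite R B]
    [Algebra.Etale R B] : (a⁻¹).perm B = (a.perm B)⁻¹ := rfl

instance : Group (PiOne p) where
  mul_assoc a b c := rfl
  one_mul a := rfl
  mul_one a := rfl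
  inv_mul_cancel a := by
    ext B _ _ _ _ f
    rw [mul_perm, inv_perm, inv_mul_cancel, one_perm]

end PiOne

section functoriality

variable {R S Ω : Type u} [CommRing R] [CommRing S] [Algebra R S] [Field Ω]

/-- The extension of a geometric point of `Spec B` to `Spec (S ⊗ B)`. -/
noncomputable def fibExt (q : S →+* Ω) (B : Type u) [CommRing B] [Algebra R B]
    (f : Fib (q.comp (algebraMap R S)) B) : S ⊗[R] B →+* Ω :=
  letI : Algebra R Ω := (q.comp (algebraMap R S)).toAlgebra
  (Algebra.TensorProduct.lift (R := R) (S := R) (A := S) (B := B) (C := Ω)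
      (⟨q, fun _ => rfl⟩ : S →ₐ[R] Ω) (⟨f.1, fun r => RingHom.congr_fun f.2 r⟩ : B →ₐ[R] Ω)
      (fun _ _ => Commute.all _ _)).toRingHom

theorem fibExt_tmul (q : S →+* Ω) (B : Type u) [CommRing B] [Algebra R B]
    (f : Fib (q.comp (algebraMap R S)) B) (s : S) (b : B) :
    fibExt q B f (s ⊗ₜ b) = q s * f.1 b := by
  let _ : Algebra R Ω := (q.comp (algebraMap R S)).toAlgebra
  exact Algebra.TensorProduct.lift_tmul _ _ _ _ _

/-- A geometric point of a cover `Spec B` of `Spec R` over the image of `q` is the same as a
geometric point over `q` of the base change of the cover to `Spec S`. -/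
noncomputable def fibEquiv (q : S →+* Ω) (B : Type u) [CommRing B] [Algebra R B] :
    Fib (q.comp (algebraMap R S)) B ≃ Fib q (S ⊗[R] B) where
  toFun f := ⟨fibExt q B f, RingHom.ext fun s => by
    rw [RingHom.comp_apply, Algebra.TensorProduct.algebraMap_apply, fibExt_tmul]
    simp⟩
  invFun f := ⟨f.1.comp (Algebra.TensorProduct.includeRight (R := R) (A := S) (B := B)).toRingHom,
    RingHom.ext fun r => by
      have h2 := RingHom.congr_fun f.2 (algebraMap R S r)
      simp only [RingHom.comp_apply] at h2 ⊢
      rw [← h2]
      congr 1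
      simp [Algebra.TensorProduct.algebraMap_apply]⟩
  left_inv f := Subtype.ext <| RingHom.ext fun b => by
    change fibExt q B f (1 ⊗ₜ b) = f.1 b
    rw [fibExt_tmul, map_one, one_mul]
  right_inv f := Subtype.ext <| RingHom.ext fun x => by
    induction x using TensorProduct.induction_on with
    | zero => rw [map_zero, map_zero]
    | add x y hx hy => rw [map_add, map_add, hx, hy]
    | tmul s b =>
      have h2 := RingHom.congr_fun f.2 s
      simp only [RingHom.comp_apply, Algebra.TensorProduct.algebraMap_apply, Algebra.algebraMap_self,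
        RingHom.id_apply] at h2
      change fibExt q B _ (s ⊗ₜ b) = _
      rw [fibExt_tmul, ← h2]
      change f.1 _ * f.1 (1 ⊗ₜ b) = _
      rw [← map_mul, Algebra.TensorProduct.tmul_mul_tmul, mul_one, one_mul]

theorem fibEquiv_pull (q : S →+* Ω) {B C : Type u} [CommRing B] [Algebra R B] [CommRing C]
    [Algebra R C] (g : B →ₐ[R] C) (f : Fib (q.comp (algebraMap R S)) C) :
    fibEquiv q B (f.pull g) =
      (fibEquiv q C f).pull (Algebra.TensorProduct.map (AlgHom.id S S) g) := by
  apply Subtype.ext
  refine RingHom.ext fun x => ?_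
  induction x using TensorProduct.induction_on with
  | zero => rw [map_zero, map_zero]
  | add x y hx hy => rw [map_add, map_add, hx, hy]
  | tmul s b =>
    change fibExt q B _ (s ⊗ₜ b) =
      fibExt q C f (Algebra.TensorProduct.map (AlgHom.id S S) g (s ⊗ₜ b))
    rw [Algebra.TensorProduct.map_tmul, fibExt_tmul, fibExt_tmul]
    rfl

/-- Functoriality of the fundamental group for `Spec S → Spec R`: an automorphism of the fibre
functor of `Spec S` at `q` acts on the fibre of a cover `Spec B` of `Spec R` through the
base-changed cover `Spec (S ⊗ B)` of `Spec S`. -/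
noncomputable def PiOne.map (R : Type u) {S Ω : Type u} [CommRing R] [CommRing S] [Algebra R S]
    [Field Ω] {q : S →+* Ω} (a : PiOne q) : PiOne (q.comp (algebraMap R S)) where
  perm B _ _ _ _ := (fibEquiv q B).trans ((a.perm (S ⊗[R] B)).trans (fibEquiv q B).symm)
  natural B C _ _ _ _ _ _ _ _ g f := by
    simp only [Equiv.trans_apply]
    rw [Equiv.symm_apply_eq, fibEquiv_pull, a.natural, fibEquiv_pull, Equiv.apply_symm_apply]

end functoriality

section curve

variable {K A Ω : Type u} [Field K] [CommRing A] [Algebra K A] [Field Ω] [Algebra K Ω]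

/-- The geometric point `Spec Ω → Spec (A ⊗ Ω)` over a `K`-rational point `x` of `Spec A`. -/
noncomputable def geomPoint (x : A →ₐ[K] K) (Ω : Type u) [Field Ω] [Algebra K Ω] :
    A ⊗[K] Ω →+* Ω :=
  (Algebra.TensorProduct.productMap ((Algebra.ofId K Ω).comp x) (AlgHom.id K Ω)).toRingHom

/-- The geometric point of `Spec A` over the `K`-rational point `x`. -/
noncomputable def basePoint (x : A →ₐ[K] K) (Ω : Type u) [Field Ω] [Algebra K Ω] : A →+* Ω :=
  (geomPoint x Ω).comp (algebraMap A (A ⊗[K] Ω))

theorem basePoint_apply (x : A →ₐ[K] K) (a : A) :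
    basePoint x Ω a = algebraMap K Ω (x a) := by
  simp [basePoint, geomPoint, Algebra.TensorProduct.algebraMap_apply, Algebra.ofId_apply]

/-- The section of `pi_1 (Spec A) → Gal(Ω/K)` defined by the rational point `x`: an automorphism
`σ` of `Ω` over `K` acts on the geometric points over `x` of every cover. -/
noncomputable def galSection (x : A →ₐ[K] K) (σ : Ω ≃ₐ[K] Ω) : PiOne (basePoint x Ω) where
  perm B _ _ _ _ :=
    { toFun := fun f => ⟨(σ : Ω →+* Ω).comp f.1, RingHom.ext fun a => by
        have := RingHom.congr_fun f.2 a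
        simp only [RingHom.comp_apply] at this ⊢
        rw [this, basePoint_apply]
        exact σ.commutes _⟩
      invFun := fun f => ⟨(σ.symm : Ω →+* Ω).comp f.1, RingHom.ext fun a => by
        have := RingHom.congr_fun f.2 a
        simp only [RingHom.comp_apply] at this ⊢
        rw [this, basePoint_apply]
        exact σ.symm.commutes _⟩
      left_inv := fun f => Subtype.ext <| RingHom.ext fun b => σ.symm_apply_apply _
      right_inv := fun f => Subtype.ext <| RingHom.ext fun b => σ.apply_symm_apply _ }
  natural B C _ _ _ _ _ _ _ _ g f := rfl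

/-- The homomorphism from the geometric fundamental group to the fundamental group. -/
noncomputable def toArith (x : A →ₐ[K] K) (γ : PiOne (geomPoint x Ω)) : PiOne (basePoint x Ω) :=
  PiOne.map A γ

/-- `γ` in the geometric fundamental group of `Spec A` at `x` is fixed by `Gal(Ω/K)`: in the
fundamental group of `Spec A` one has `s(σ) γ s(σ)⁻¹ = γ` for all `σ`. -/
def IsGalFixed (x : A →ₐ[K] K) (γ : PiOne (geomPoint x Ω)) : Prop :=
  ∀ σ : Ω ≃ₐ[K] Ω,
    galSection x σ * toArith x γ * (galSection x σ)⁻¹ = toArith x γ

end curve

end EtalePi
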