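import Pool.Agent.Helper98.Pi.Main

universe u

open TensorProduct

namespace EtalePi

variable {K A Ω : Type u} [Field K] [CommRing A] [Algebra K A] [Field Ω] [Algebra K Ω]

/-- the map `A ⊗ K' → A ⊗ Ω` -/
noncomputable def jmap (A : Type u) [CommRing A] [Algebra K A] (K' : IntermediateField K Ω) :
    A ⊗[K] K' →ₐ[A] A ⊗[K] Ω :=
  Algebra.TensorProduct.map (AlgHom.id A A) K'.val

theorem jmap_tmul (K' : IntermediateField K Ω) (a : A) (k : K') :
    jmap A K' (a ⊗ₜ k) = a ⊗ₜ (k : Ω) := rfl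

/-- the map `K' ⊗ A → Ω ⊗ A` -/
noncomputable def jleft (A : Type u) [CommRing A] [Algebra K A] (K' : IntermediateField K Ω) :
    K' ⊗[K] A →+* Ω ⊗[K] A :=
  (Algebra.TensorProduct.map K'.val (AlgHom.id K A)).toRingHom

theorem ff_left (K' : IntermediateField K Ω) :
    RingHom.FaithfullyFlat (R := K' ⊗[K] A) (S := Ω ⊗[K] A) (jleft A K') := by
  let j := jleft A K'
  let _ : Algebra (K' ⊗[K] A) (Ω ⊗[K] A) := j.toAlgebra
  have : IsScalarTower K' (K' ⊗[K] A) (Ω ⊗[K] A) := by
    exact IsScalarTower.of_algebraMap_eq (R := K') (S := K' ⊗[K] A) (A := Ω ⊗[K] A)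
      fun k => rfl
  have hpush : Algebra.IsPushout K' Ω (K' ⊗[K] A) (Ω ⊗[K] A) := by
    apply Algebra.IsPushout.tensorProduct_tensorProduct
    ext a
    rfl
  have hff : (algebraMap K' Ω).FaithfullyFlat := by
    rw [RingHom.faithfullyFlat_algebraMap_iff]
    infer_instance
  exact RingHom.FaithfullyFlat.isStableUnderBaseChange K' Ω (K' ⊗[K] A) (Ω ⊗[K] A) hff

/-- `jmap` as a ring homomorphism -/
noncomputable def jring (A : Type u) [CommRing A] [Algebra K A] (K' : IntermediateField K Ω) :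
    A ⊗[K] K' →+* A ⊗[K] Ω := (jmap A K').toRingHom

theorem jring_ff (K' : IntermediateField K Ω) :
    RingHom.FaithfullyFlat (R := A ⊗[K] K') (S := A ⊗[K] Ω) (jring A K') := by
  let c1 : A ⊗[K] K' →+* K' ⊗[K] A := (Algebra.TensorProduct.comm K A K').toAlgHom.toRingHom
  let c2 : Ω ⊗[K] A →+* A ⊗[K] Ω := (Algebra.TensorProduct.comm K Ω A).toAlgHom.toRingHom
  have h1 : RingHom.FaithfullyFlat (R := A ⊗[K] K') (S := K' ⊗[K] A) c1 :=
    RingHom.FaithfullyFlat.of_bijective (Algebra.TensorProduct.comm K A K').bijective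
  have h2 : RingHom.FaithfullyFlat (R := Ω ⊗[K] A) (S := A ⊗[K] Ω) c2 :=
    RingHom.FaithfullyFlat.of_bijective (Algebra.TensorProduct.comm K Ω A).bijective
  have h3 := RingHom.FaithfullyFlat.stableUnderComposition _ _ h1 (ff_left (A := A) K')
  have h4 := RingHom.FaithfullyFlat.stableUnderComposition _ _ h3 h2
  convert h4 using 1
  refine RingHom.ext fun t => ?_
  induction t using TensorProduct.induction_on with
  | zero => rw [map_zero, map_zero]
  | add y z hy hz => rw [map_add, map_add, hy, hz]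
  | tmul y z => rfl

theorem jmap_injective (K' : IntermediateField K Ω) : Function.Injective (jmap A K') :=
  (jring_ff (A := A) K').injective

theorem jmap_range_mono {K' K'' : IntermediateField K Ω} (h : K' ≤ K'') :
    (jmap A K').range ≤ (jmap A K'').range := by
  rintro _ ⟨t, rfl⟩
  induction t using TensorProduct.induction_on with
  | zero => rw [map_zero]; exact zero_mem _
  | add y z hy hz => rw [map_add]; exact add_mem hy hz
  | tmul y z => exact ⟨y ⊗ₜ ⟨z.1, h z.2⟩, rfl⟩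

theorem exists_mem_range [Algebra.IsAlgebraic K Ω] (s : A ⊗[K] Ω) :
    ∃ K' : IntermediateField K Ω, FiniteDimensional K K' ∧ s ∈ (jmap A K').range := by
  induction s using TensorProduct.induction_on with
  | zero => exact ⟨⊥, inferInstance, zero_mem _⟩
  | add y z hy hz =>
    obtain ⟨K₁, h1, h1'⟩ := hy
    obtain ⟨K₂, h2, h2'⟩ := hz
    exact ⟨K₁ ⊔ K₂, inferInstance, add_mem (jmap_range_mono le_sup_left h1')
      (jmap_range_mono le_sup_right h2')⟩
  | tmul y z =>
    refine ⟨IntermediateField.adjoin K {z}, IntermediateField.adjoin.finiteDimensional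
      (Algebra.IsAlgebraic.isAlgebraic z).isIntegral, ?_⟩
    exact ⟨y ⊗ₜ ⟨z, IntermediateField.mem_adjoin_simple_self K z⟩, rfl⟩

theorem exists_range_ge [Algebra.IsAlgebraic K Ω] (A₀ : Subalgebra A (A ⊗[K] Ω)) (h : A₀.FG) :
    ∃ K' : IntermediateField K Ω, FiniteDimensional K K' ∧ A₀ ≤ (jmap A K').range := by
  obtain ⟨t, rfl⟩ := h
  classical
  have key : ∀ t : Finset (A ⊗[K] Ω), ∃ K' : IntermediateField K Ω, FiniteDimensional K K' ∧
      ∀ s ∈ t, s ∈ (jmap A K').range := by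
    intro t
    induction t using Finset.induction_on with
    | empty => exact ⟨⊥, inferInstance, fun s hs => absurd hs (Finset.notMem_empty s)⟩
    | insert s t _ ih =>
      obtain ⟨K₁, h1, h1'⟩ := ih
      obtain ⟨K₂, h2, h2'⟩ := exists_mem_range s
      refine ⟨K₁ ⊔ K₂, inferInstance, fun r hr => ?_⟩
      rcases Finset.mem_insert.1 hr with rfl | hr
      · exact jmap_range_mono le_sup_right h2'
      · exact jmap_range_mono le_sup_left (h1' r hr)
  obtain ⟨K', h1, h2⟩ := key t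
  exact ⟨K', h1, Algebra.adjoin_le h2⟩

theorem exists_cover_aux {A D S A₀ B₀ B : Type u} [CommRing A] [CommRing D] [CommRing S]
    [CommRing A₀] [CommRing B₀] [CommRing B] [Algebra A D] [Algebra A S] [Algebra D S]
    [IsScalarTower A D S] [Algebra A₀ D] [Algebra A₀ S] [IsScalarTower A₀ D S]
    [Module.FaithfullyFlat D S] [Module.Finite A D] [Algebra.Etale A D] [Algebra A₀ B₀]
    [Algebra.Etale A₀ B₀] [Algebra S B] [Module.Finite S B] (e : B ≃ₐ[S] S ⊗[A₀] B₀) :
    ∃ (B' : Type u) (_ : CommRing B') (_ : Algebra A B') (_ : Module.Finite A B')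
      (_ : Algebra.Etale A B') (φ : B' →+* B),
      (∀ a : A, φ (algebraMap A B' a) = algebraMap S B (algebraMap A S a)) ∧
      ∀ b : B, b ∈ Submodule.span S (Set.range φ) := by
  let e2 : S ⊗[D] (D ⊗[A₀] B₀) ≃ₐ[S] B :=
    (Algebra.TensorProduct.cancelBaseChange A₀ D S S B₀).trans e.symm
  have hfin1 : Module.Finite S (S ⊗[D] (D ⊗[A₀] B₀)) :=
    Module.Finite.equiv e2.symm.toLinearEquiv
  have hfin2 : Module.Finite D (D ⊗[A₀] B₀) :=
    Module.Finite.of_finite_tensorProduct_of_faithfullyFlat (T := S)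
  have hfin3 : Module.Finite A (D ⊗[A₀] B₀) := Module.Finite.trans D _
  have het3 : Algebra.Etale A (D ⊗[A₀] B₀) := Algebra.Etale.comp A D _
  let inc : (D ⊗[A₀] B₀) →ₐ[D] S ⊗[D] (D ⊗[A₀] B₀) := Algebra.TensorProduct.includeRight
  refine ⟨D ⊗[A₀] B₀, inferInstance, inferInstance, hfin3, het3,
    e2.toAlgHom.toRingHom.comp inc.toRingHom, ?_, ?_⟩
  · intro a
    change e2 (inc (algebraMap A (D ⊗[A₀] B₀) a)) = _
    rw [IsScalarTower.algebraMap_apply A D (D ⊗[A₀] B₀), inc.commutes,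
      IsScalarTower.algebraMap_apply A D S, IsScalarTower.algebraMap_apply D S
        (S ⊗[D] (D ⊗[A₀] B₀))]
    exact e2.commutes _
  · intro b
    obtain ⟨t, rfl⟩ := e2.surjective b
    induction t using TensorProduct.induction_on with
    | zero => rw [map_zero]; exact zero_mem _
    | add y z hy hz => rw [map_add]; exact add_mem hy hz
    | tmul s t =>
      have : (s ⊗ₜ[D] t : S ⊗[D] (D ⊗[A₀] B₀)) = s • inc t := by
        change _ = s • ((1 : S) ⊗ₜ[D] t)
        rw [TensorProduct.smul_tmul', smul_eq_mul, mul_one]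
      rw [this, map_smul]
      exact Submodule.smul_mem _ _ (Submodule.subset_span ⟨t, rfl⟩)

/-- Every finite etale cover of `Spec (A ⊗ Ω)` is dominated by the base change of a finite etale
cover of `Spec A`. -/
theorem exists_cover [Algebra.IsAlgebraic K Ω] [Algebra.IsSeparable K Ω]
    (B : Type u) [CommRing B] [Algebra (A ⊗[K] Ω) B]
    [Module.Finite (A ⊗[K] Ω) B] [Algebra.Etale (A ⊗[K] Ω) B] :
    ∃ (B' : Type u) (_ : CommRing B') (_ : Algebra A B') (_ : Module.Finite A B')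
      (_ : Algebra.Etale A B') (φ : B' →+* B),
      (∀ a : A, φ (algebraMap A B' a) = algebraMap (A ⊗[K] Ω) B (algebraMap A (A ⊗[K] Ω) a)) ∧
      ∀ b : B, b ∈ Submodule.span (A ⊗[K] Ω) (Set.range φ) := by
  obtain ⟨A₀, B₀, _, _, hfg, hetale, ⟨e⟩⟩ :=
    Algebra.Etale.exists_subalgebra_fg A (A ⊗[K] Ω) B
  obtain ⟨K', hK', hle⟩ := exists_range_ge A₀ hfg
  -- the map `A₀ → A ⊗ K'`
  let i : A₀ →ₐ[A] A ⊗[K] K' :=
    ((AlgEquiv.ofInjective (jmap A K') (jmap_injective K')).symm.toAlgHom).comp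
      (Subalgebra.inclusion hle)
  have hi : ∀ a : A₀, jmap A K' (i a) = a.1 := by
    intro a
    have := (AlgEquiv.ofInjective (jmap A K') (jmap_injective K')).apply_symm_apply
      (Subalgebra.inclusion hle a)
    exact congrArg Subtype.val this
  let i' : A₀ →+* A ⊗[K] K' := i.toRingHom
  let I1 : Algebra A₀ (A ⊗[K] K') := @RingHom.toAlgebra A₀ (A ⊗[K] K') _ _ i'
  let I2 : Algebra (A ⊗[K] K') (A ⊗[K] Ω) := (jring A K').toAlgebra
  have hff : Module.FaithfullyFlat (A ⊗[K] K') (A ⊗[K] Ω) := by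
    rw [← RingHom.faithfullyFlat_algebraMap_iff]
    exact jring_ff K'
  have hE : Algebra.Etale K K' :=
    { formallyEtale := Algebra.FormallyEtale.of_isSeparable K K'
      finitePresentation := Algebra.FinitePresentation.of_finiteType.1 inferInstance }
  have T1 : IsScalarTower A (A ⊗[K] K') (A ⊗[K] Ω) :=
    IsScalarTower.of_algebraMap_eq (R := A) (S := A ⊗[K] K') (A := A ⊗[K] Ω) fun a =>
      ((jmap A K').commutes a).symm
  have T2 : IsScalarTower A₀ (A ⊗[K] K') (A ⊗[K] Ω) :=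
    IsScalarTower.of_algebraMap_eq (R := A₀) (S := A ⊗[K] K') (A := A ⊗[K] Ω) fun a => (hi a).symm
  exact exists_cover_aux (A := A) (D := A ⊗[K] K') (S := A ⊗[K] Ω) (A₀ := A₀) (B₀ := B₀) (B := B) e

end EtalePi
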