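import Pool.Agent.Helper98.Pi.Descent

universe u

open TensorProduct

namespace EtalePi

section gen

variable {R S Ω : Type u} [CommRing R] [CommRing S] [Algebra R S] [Field Ω]

theorem map_perm_apply {q : S →+* Ω} (a : PiOne q) (B : Type u) [CommRing B] [Algebra R B]
    [Module.Finite R B] [Algebra.Etale R B] (f : Fib (q.comp (algebraMap R S)) B) :
    fibEquiv q B ((PiOne.map R a).perm B f) = a.perm (S ⊗[R] B) (fibEquiv q B f) :=
  (fibEquiv q B).apply_symm_apply _

/-- a point of the cover `B` of `R` factoring through `S` is fixed by the image of `a` -/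
theorem map_perm_of_factor {q : S →+* Ω} (a : PiOne q) (B : Type u) [CommRing B] [Algebra R B]
    [Module.Finite R B] [Algebra.Etale R B] (f : Fib (q.comp (algebraMap R S)) B)
    (j : B →ₐ[R] S) (hj : ∀ b, f.1 b = q (j b)) : (PiOne.map R a).perm B f = f := by
  apply (fibEquiv q B).injective
  rw [map_perm_apply]
  let m : S ⊗[R] B →ₐ[S] S := Algebra.TensorProduct.lift (AlgHom.id S S) j
    (fun _ _ => Commute.all _ _)
  let pt : Fib q S := ⟨q, RingHom.comp_id q⟩
  have hsub : ∀ g : Fib q S, g = pt := fun g =>
    Subtype.ext (RingHom.ext fun s => RingHom.congr_fun g.2 s)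
  have hm : fibEquiv q B f = pt.pull m := by
    apply Subtype.ext
    refine RingHom.ext fun t => ?_
    induction t using TensorProduct.induction_on with
    | zero => rw [map_zero, map_zero]
    | add y z hy hz => rw [map_add, map_add, hy, hz]
    | tmul s b =>
      change fibExt q B f (s ⊗ₜ b) = q (m (s ⊗ₜ b))
      rw [fibExt_tmul, hj]
      simp only [m]
      rw [Algebra.TensorProduct.lift_tmul, map_mul]
      rfl
  rw [hm, a.natural, hsub (a.perm S pt)]

theorem eq_of_map_perm {q : S →+* Ω} (a : PiOne q) (ha : PiOne.map R a = 1)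
    (B : Type u) [CommRing B] [Algebra S B] [Module.Finite S B] [Algebra.Etale S B]
    (B' : Type u) [CommRing B'] [Algebra R B'] [Module.Finite R B'] [Algebra.Etale R B']
    (φ : B' →+* B) (hφ : ∀ r : R, φ (algebraMap R B' r) = algebraMap S B (algebraMap R S r))
    (hspan : ∀ b : B, b ∈ Submodule.span S (Set.range φ)) (f : Fib q B) : a.perm B f = f := by
  let _ : Algebra R B := ((algebraMap S B).comp (algebraMap R S)).toAlgebra
  have : IsScalarTower R S B := IsScalarTower.of_algebraMap_eq fun r => rfl
  let φ' : B' →ₐ[R] B := ⟨φ, hφ⟩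
  let m : S ⊗[R] B' →ₐ[S] B := Algebra.TensorProduct.lift (Algebra.ofId S B) φ'
    (fun _ _ => Commute.all _ _)
  have hm : ∀ b' : B', m ((1 : S) ⊗ₜ b') = φ b' := fun b' => by
    simp only [m]
    rw [Algebra.TensorProduct.lift_tmul, map_one, one_mul]
    rfl
  let h : Fib (q.comp (algebraMap R S)) B' := (fibEquiv q B').symm (f.pull m)
  have h1 : (PiOne.map R a).perm B' h = h := by rw [ha]; rfl
  have h2 := congrArg (fibEquiv q B') h1
  rw [map_perm_apply] at h2
  simp only [h] at h2
  rw [Equiv.apply_symm_apply, a.natural] at h2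
  have h3 : ∀ b' : B', (a.perm B f).1 (φ b') = f.1 (φ b') := fun b' => by
    have := RingHom.congr_fun (congrArg Subtype.val h2) ((1 : S) ⊗ₜ b')
    change (a.perm B f).1 (m _) = f.1 (m _) at this
    rwa [hm] at this
  apply Subtype.ext
  refine RingHom.ext fun b => ?_
  induction hspan b using Submodule.span_induction with
  | mem y hy => obtain ⟨b', rfl⟩ := hy; exact h3 b'
  | zero => rw [map_zero, map_zero]
  | add y z _ _ hy hz => rw [map_add, map_add, hy, hz]
  | smul s y _ hy =>
    rw [Algebra.smul_def, map_mul, map_mul, hy]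
    congr 1
    exact (RingHom.congr_fun (a.perm B f).2 s).trans (RingHom.congr_fun f.2 s).symm

end gen

variable {K A Ω : Type u} [Field K] [CommRing A] [Algebra K A] [Field Ω] [Algebra K Ω]

theorem geomPoint_tmul (x : A →ₐ[K] K) (a : A) (w : Ω) :
    geomPoint x Ω (a ⊗ₜ w) = algebraMap K Ω (x a) * w := by
  simp [geomPoint, Algebra.ofId_apply]

theorem toArith_const [IsSepClosure K Ω] (x : A →ₐ[K] K) (γ : PiOne (geomPoint x Ω))
    (K' : IntermediateField K Ω) [FiniteDimensional K K'] :
    (toArith x γ).perm (A ⊗[K] K') (constPt x K') = constPt x K' := by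
  refine map_perm_of_factor γ (A ⊗[K] K') (constPt x K') (jmap A K') fun t => ?_
  induction t using TensorProduct.induction_on with
  | zero => rw [map_zero, map_zero, map_zero]
  | add y z hy hz => rw [map_add, map_add, map_add, hy, hz]
  | tmul y z => rw [constPt_tmul, jmap_tmul, geomPoint_tmul]

theorem toArith_injective [IsSepClosure K Ω] (x : A →ₐ[K] K) (γ : PiOne (geomPoint x Ω))
    (h : toArith x γ = 1) : γ = 1 := by
  apply PiOne.ext
  funext B _ _ _ _
  refine Equiv.ext fun f => ?_
  obtain ⟨B', _, _, _, _, φ, h1, h2⟩ := exists_cover (K := K) (A := A) (Ω := Ω) B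
  exact eq_of_map_perm γ h B B' φ h1 h2 f

/-- **Main theorem.**  `K` a field of characteristic `p` all of whose finite separable extensions
have an Artin-Schreier extension, `Spec A` an affine `K`-scheme with a rational point `x`. -/
theorem eq_one_of_isGalFixed [IsSepClosure K Ω] (p : ℕ) [hp : Fact p.Prime] [CharP K p]
    (hAS : ∀ K' : IntermediateField K Ω, FiniteDimensional K K' →
      ∃ β : K', ∀ u : K', u ^ p - u ≠ β)
    (x : A →ₐ[K] K) (γ : PiOne (geomPoint x Ω)) (hγ : IsGalFixed x γ) : γ = 1 :=
  toArith_injective x γ (eq_one_of_fixed x p hAS (toArith x γ)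
    (fun K' _ => toArith_const x γ K') hγ)

/-- finite fields satisfy the hypothesis of the main theorem -/
theorem eq_one_finite [IsSepClosure K Ω] [Finite K]
    (x : A →ₐ[K] K) (γ : PiOne (geomPoint x Ω)) (hγ : IsGalFixed x γ) : γ = 1 := by
  obtain ⟨p, hp⟩ := CharP.exists K
  have hprime : Fact p.Prime := ⟨CharP.char_is_prime K p⟩
  refine eq_one_of_isGalFixed p (fun K' _ => ?_) x γ hγ
  have : Finite K' := Module.finite_of_finite K
  exact finite_not_as K' hprime.out.one_lt

/-- global function fields satisfy the hypothesis of the main theorem -/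
theorem eq_one_functionField [IsSepClosure K Ω] (k : Type u) [Field k] [Finite k]
    [Algebra (RatFunc k) K] [FunctionField k K]
    (x : A →ₐ[K] K) (γ : PiOne (geomPoint x Ω)) (hγ : IsGalFixed x γ) : γ = 1 := by
  obtain ⟨p, hp⟩ := CharP.exists k
  have hprime : Fact p.Prime := ⟨CharP.char_is_prime k p⟩
  have hR : CharP (RatFunc k) p :=
    charP_of_injective_algebraMap (algebraMap k (RatFunc k)).injective p
  have hK : CharP K p := charP_of_injective_algebraMap (algebraMap (RatFunc k) K).injective p
  refine eq_one_of_isGalFixed p (fun K' _ => ?_) x γ hγ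
  let I : Algebra (RatFunc k) K' := ((algebraMap K K').comp (algebraMap (RatFunc k) K)).toAlgebra
  have T : IsScalarTower (RatFunc k) K K' := IsScalarTower.of_algebraMap_eq fun r => rfl
  have hfin : FiniteDimensional (RatFunc k) K' := Module.Finite.trans K K'
  exact exists_not_as (E := RatFunc k) (L := K') p (ratFunc_not_as k hprime.out.one_lt)

end EtalePi
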