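import Pool.Agent.Helper98.Pi.AS

universe u

open Polynomial

namespace EtalePi

theorem trace_pow_char {E L : Type u} [Field E] [Field L] [Algebra E L] [FiniteDimensional E L]
    [Algebra.IsSeparable E L] (p : ℕ) [Fact p.Prime] [CharP E p] (u : L) :
    Algebra.trace E L (u ^ p) = (Algebra.trace E L u) ^ p := by
  apply (algebraMap E (AlgebraicClosure E)).injective
  have : CharP (AlgebraicClosure E) p :=
    charP_of_injective_algebraMap (algebraMap E (AlgebraicClosure E)).injective p
  rw [trace_eq_sum_embeddings (AlgebraicClosure E), RingHom.map_pow,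
    trace_eq_sum_embeddings (AlgebraicClosure E), sum_pow_char]
  simp only [map_pow]

theorem exists_not_as_sep {E L : Type u} [Field E] [Field L] [Algebra E L]
    [FiniteDimensional E L] [Algebra.IsSeparable E L] (p : ℕ) [Fact p.Prime] [CharP E p]
    (h : ∃ β : E, ∀ u : E, u ^ p - u ≠ β) : ∃ β : L, ∀ u : L, u ^ p - u ≠ β := by
  obtain ⟨β, hβ⟩ := h
  obtain ⟨b, hb⟩ := Algebra.trace_surjective E L β
  refine ⟨b, fun u hu => hβ (Algebra.trace E L u) ?_⟩
  rw [← trace_pow_char, ← map_sub, hu, hb]

theorem exists_not_as {E L : Type u} [Field E] [Field L] [Algebra E L]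
    [FiniteDimensional E L] (p : ℕ) [hp : Fact p.Prime] [CharP E p]
    (h : ∃ β : E, ∀ u : E, u ^ p - u ≠ β) : ∃ β : L, ∀ u : L, u ^ p - u ≠ β := by
  obtain ⟨b, hb⟩ := exists_not_as_sep (E := E) (L := separableClosure E L) p h
  refine ⟨b, fun u hu => ?_⟩
  have : CharP (separableClosure E L) p :=
    charP_of_injective_algebraMap (algebraMap E (separableClosure E L)).injective p
  have hsep : IsSeparable (separableClosure E L) u := by
    have hpol : (asPoly p b).Separable := by
      rw [Polynomial.separable_def, asPoly_derivative b (CharP.cast_eq_zero _ p)]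
      exact isCoprime_one_right.neg_right
    have haev : aeval u (asPoly p b) = 0 := by
      simp only [asPoly, map_sub, map_pow, aeval_X, map_add, aeval_C]
      have h2 : algebraMap (separableClosure E L) L b = u ^ p - u := hu.symm
      rw [h2]
      ring
    exact hpol.of_dvd (minpoly.dvd _ _ haev)
  have hsep2 : IsSeparable E u :=
    IsSeparable.of_algebra_isSeparable_of_isSeparable E hsep
  have hmem : u ∈ separableClosure E L := mem_separableClosure_iff.2 hsep2
  exact hb ⟨u, hmem⟩ (Subtype.ext hu)

theorem ratFunc_not_as (k : Type u) [Field k] {p : ℕ} (hp : 1 < p) :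
    ∃ β : RatFunc k, ∀ u : RatFunc k, u ^ p - u ≠ β :=
  ⟨RatFunc.X, fun u => by
    classical
    exact not_as_of_valuation (RatFunc.inftyValuation k) (RatFunc.inftyValuation.X k) hp u⟩

theorem finite_not_as (L : Type u) [Field L] [Finite L] {p : ℕ} (hp : 1 < p) :
    ∃ β : L, ∀ u : L, u ^ p - u ≠ β := by
  by_contra h
  push Not at h
  have hs : Function.Surjective (fun u : L => u ^ p - u) := h
  have hi := Finite.injective_iff_surjective.2 hs
  have : (0 : L) = 1 := hi (by simp [zero_pow (show p ≠ 0 by omega)])
  exact zero_ne_one this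

end EtalePi
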