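import Pool.Agent.Helper98.Pi.Defs
import Pool.Agent.Helper98.Pi.NotAS

universe u

open TensorProduct Polynomial

namespace EtalePi

section

variable {K A Ω : Type u} [Field K] [CommRing A] [Algebra K A] [Field Ω] [Algebra K Ω]
variable (x : A →ₐ[K] K)

theorem Fib.apply_algebraMap {B : Type u} [CommRing B] [Algebra A B]
    (f : Fib (basePoint x Ω) B) (a : A) : f.1 (algebraMap A B a) = algebraMap K Ω (x a) := by
  rw [← basePoint_apply (Ω := Ω) x a]
  exact RingHom.congr_fun f.2 a

/-- the values of finitely many points on a finite algebra lie in a finite extension -/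
theorem Fib.exists_finite [Algebra.IsAlgebraic K Ω] {B : Type u} [CommRing B] [Algebra A B]
    [Module.Finite A B] (f g : Fib (basePoint x Ω) B) :
    ∃ K' : IntermediateField K Ω, FiniteDimensional K K' ∧ (∀ b, f.1 b ∈ K') ∧
      (∀ b, g.1 b ∈ K') := by
  obtain ⟨s, hs⟩ := Module.Finite.fg_top (R := A) (M := B)
  classical
  let t : Finset Ω := s.image f.1 ∪ s.image g.1
  refine ⟨IntermediateField.adjoin K (t : Set Ω), ?_, ?_, ?_⟩
  · exact IntermediateField.finiteDimensional_adjoin fun z _ =>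
      (Algebra.IsAlgebraic.isAlgebraic z).isIntegral
  · intro b
    have hb : b ∈ Submodule.span A (s : Set B) := hs ▸ Submodule.mem_top
    induction hb using Submodule.span_induction with
    | mem y hy =>
      apply IntermediateField.subset_adjoin
      simp only [t, Finset.coe_union, Finset.coe_image]
      exact Or.inl ⟨y, hy, rfl⟩
    | zero => rw [map_zero]; exact zero_mem _
    | add y z _ _ hy hz => rw [map_add]; exact add_mem hy hz
    | smul a y _ hy =>
      rw [Algebra.smul_def, map_mul, Fib.apply_algebraMap]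
      exact mul_mem (IntermediateField.algebraMap_mem _ _) hy
  · intro b
    have hb : b ∈ Submodule.span A (s : Set B) := hs ▸ Submodule.mem_top
    induction hb using Submodule.span_induction with
    | mem y hy =>
      apply IntermediateField.subset_adjoin
      simp only [t, Finset.coe_union, Finset.coe_image]
      exact Or.inr ⟨y, hy, rfl⟩
    | zero => rw [map_zero]; exact zero_mem _
    | add y z _ _ hy hz => rw [map_add]; exact add_mem hy hz
    | smul a y _ hy =>
      rw [Algebra.smul_def, map_mul, Fib.apply_algebraMap]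
      exact mul_mem (IntermediateField.algebraMap_mem _ _) hy

/-- the geometric point of `Spec (A ⊗ K')` over `x` defined by the inclusion of `K'` -/
noncomputable def constPt (K' : IntermediateField K Ω) : Fib (basePoint x Ω) (A ⊗[K] K') :=
  ⟨(Algebra.TensorProduct.productMap ((Algebra.ofId K Ω).comp x) K'.val).toRingHom, by
    ext a
    rw [basePoint_apply]
    simp [Algebra.TensorProduct.algebraMap_apply, Algebra.ofId_apply]⟩

theorem constPt_tmul (K' : IntermediateField K Ω) (a : A) (k : K') :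
    (constPt x K').1 (a ⊗ₜ k) = algebraMap K Ω (x a) * k := by
  simp [constPt, Algebra.ofId_apply]

end

section prod

variable {R Ω : Type u} [CommRing R] [Field Ω] {p : R →+* Ω}

/-- the product of two geometric points -/
noncomputable def Fib.prod {B C : Type u} [CommRing B] [Algebra R B] [CommRing C] [Algebra R C]
    (f : Fib p B) (g : Fib p C) : Fib p (B ⊗[R] C) :=
  letI : Algebra R Ω := p.toAlgebra
  ⟨(Algebra.TensorProduct.lift (R := R) (S := R) (A := B) (B := C) (C := Ω)
      (⟨f.1, fun r => RingHom.congr_fun f.2 r⟩ : B →ₐ[R] Ω)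
      (⟨g.1, fun r => RingHom.congr_fun g.2 r⟩ : C →ₐ[R] Ω)
      (fun _ _ => Commute.all _ _)).toRingHom, by
    ext r
    simp
    rfl⟩

theorem Fib.prod_tmul {B C : Type u} [CommRing B] [Algebra R B] [CommRing C] [Algebra R C]
    (f : Fib p B) (g : Fib p C) (b : B) (c : C) : (f.prod g).1 (b ⊗ₜ c) = f.1 b * g.1 c := by
  let _ : Algebra R Ω := p.toAlgebra
  exact Algebra.TensorProduct.lift_tmul _ _ (fun _ _ => Commute.all _ _) _ _

end prod

section main

variable {K A Ω : Type u} [Field K] [CommRing A] [Algebra K A] [Field Ω] [Algebra K Ω]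
variable (x : A →ₐ[K] K)

theorem galSection_apply (σ : Ω ≃ₐ[K] Ω) (B : Type u) [CommRing B] [Algebra A B]
    [Module.Finite A B] [Algebra.Etale A B] (f : Fib (basePoint x Ω) B) (b : B) :
    (((galSection x σ).perm B) f).1 b = σ (f.1 b) := rfl

theorem asPoly_eval₂ {R S : Type u} [CommRing R] [CommRing S] (p : ℕ) (a : R) (φ : R →+* S)
    (r : S) : (asPoly p a).eval₂ φ r = r ^ p - (r + φ a) := by
  simp only [asPoly, eval₂_sub, eval₂_add, eval₂_X_pow, eval₂_X, eval₂_C]

theorem as_step [IsSepClosure K Ω] (p : ℕ) [hp : Fact p.Prime] [CharP K p]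
    (δ : PiOne (basePoint x Ω))
    (hfix : ∀ σ : Ω ≃ₐ[K] Ω, galSection x σ * δ * (galSection x σ)⁻¹ = δ)
    (B' : Type u) [CommRing B'] [Algebra A B'] [Module.Finite A B'] [Algebra.Etale A B']
    (F : Fib (basePoint x Ω) B') (K' : IntermediateField K Ω) (hF : ∀ b, F.1 b ∈ K')
    (a : B') (hFa : F.1 a = 0) (β : K') (hδFa : (δ.perm B' F).1 a = β) :
    ∃ u : K', u ^ p - u = β := by
  have hgal : IsGalois K Ω := inferInstance
  have hone : 1 < p := hp.out.one_lt
  -- the Artin-Schreier cover
  have hpA : ((p : ℕ) : B') = 0 := by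
    have h1 : ((p : ℕ) : K) = 0 := CharP.cast_eq_zero K p
    have h2 : ((p : ℕ) : A) = 0 := by
      rw [← map_natCast (algebraMap K A), h1, map_zero]
    rw [← map_natCast (algebraMap A B'), h2, map_zero]
  have hT1 : Module.Finite B' (AdjoinRoot (asPoly p a)) := as_finite hone a
  have hT2 : Algebra.Etale B' (AdjoinRoot (asPoly p a)) := as_etale hone a hpA
  have hT3 : Module.Finite A (AdjoinRoot (asPoly p a)) := Module.Finite.trans B' _
  have hT4 : Algebra.Etale A (AdjoinRoot (asPoly p a)) := Algebra.Etale.comp A B' _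
  have hG0 : (asPoly p a).eval₂ F.1 0 = 0 := by
    rw [asPoly_eval₂, hFa, add_zero, zero_pow hp.out.ne_zero, sub_zero]
  let G : Fib (basePoint x Ω) (AdjoinRoot (asPoly p a)) := ⟨AdjoinRoot.lift F.1 0 hG0, by
    refine RingHom.ext fun a' => ?_
    rw [RingHom.comp_apply, IsScalarTower.algebraMap_apply A B' (AdjoinRoot (asPoly p a))]
    exact (AdjoinRoot.lift_of hG0).trans (RingHom.congr_fun F.2 a')⟩
  have hGF : G.pull (IsScalarTower.toAlgHom A B' (AdjoinRoot (asPoly p a))) = F := by
    apply Subtype.ext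
    refine RingHom.ext fun b' => ?_
    exact AdjoinRoot.lift_of hG0
  have hδG : (δ.perm _ G).pull (IsScalarTower.toAlgHom A B' (AdjoinRoot (asPoly p a))) =
      δ.perm B' F := by
    rw [← δ.natural, hGF]
  have hδG' : ∀ b' : B', (δ.perm _ G).1 (algebraMap B' (AdjoinRoot (asPoly p a)) b') =
      (δ.perm B' F).1 b' := fun b' =>
    RingHom.congr_fun (congrArg Subtype.val hδG) b'
  set u : Ω := (δ.perm _ G).1 (AdjoinRoot.root (asPoly p a)) with hu
  have hroot : (AdjoinRoot.root (asPoly p a)) ^ p - AdjoinRoot.root (asPoly p a) =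
      algebraMap B' (AdjoinRoot (asPoly p a)) a := by
    have h0 := AdjoinRoot.eval₂_root (asPoly p a)
    rw [asPoly_eval₂ p a (AdjoinRoot.of (asPoly p a)) (AdjoinRoot.root (asPoly p a)),
      ← sub_sub, sub_eq_zero] at h0
    exact h0
  have hueq : u ^ p - u = (β : Ω) := by
    rw [hu, ← map_pow, ← map_sub, hroot, hδG', hδFa]
  -- `u` is fixed by all automorphisms fixing `K'`
  have humem : u ∈ K' := by
    rw [← InfiniteGalois.fixedField_fixingSubgroup K', IntermediateField.mem_fixedField_iff]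
    intro σ hσ
    rw [IntermediateField.mem_fixingSubgroup_iff] at hσ
    have hGσ : (galSection x σ).perm _ G = G := by
      apply Subtype.ext
      refine RingHom.ext fun t => ?_
      induction t using AdjoinRoot.induction_on with
      | ih q =>
        rw [galSection_apply]
        change σ (AdjoinRoot.lift F.1 0 hG0 (AdjoinRoot.mk _ q)) =
          AdjoinRoot.lift F.1 0 hG0 (AdjoinRoot.mk _ q)
        rw [AdjoinRoot.lift_mk]
        apply hσ
        rw [eval₂_eq_sum]
        refine sum_mem fun i _ => mul_mem (hF _) (pow_mem (zero_mem _) _)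
    have h1 : (galSection x σ).perm _ (δ.perm _ G) = δ.perm _ G := by
      conv_rhs => rw [← hfix σ]
      rw [PiOne.mul_perm, PiOne.mul_perm, PiOne.inv_perm, Equiv.Perm.mul_apply,
        Equiv.Perm.mul_apply]
      congr 2
      rw [Equiv.Perm.eq_inv_iff_eq]
      exact hGσ
    have h2 := RingHom.congr_fun (congrArg Subtype.val h1) (AdjoinRoot.root (asPoly p a))
    exact h2
  exact ⟨⟨u, humem⟩, Subtype.ext hueq⟩

instance etale_const [IsSepClosure K Ω] (K' : IntermediateField K Ω) [FiniteDimensional K K'] :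
    Algebra.Etale K K' where
  formallyEtale := Algebra.FormallyEtale.of_isSeparable K K'
  finitePresentation := Algebra.FinitePresentation.of_finiteType.1 inferInstance

instance etale_tensor {R B C : Type u} [CommRing R] [CommRing B] [Algebra R B]
    [Algebra.Etale R B] [CommRing C] [Algebra R C] [Algebra.Etale R C] :
    Algebra.Etale R (B ⊗[R] C) := Algebra.Etale.comp R B (B ⊗[R] C)

theorem exists_as_of_ne [IsSepClosure K Ω] (p : ℕ) [hp : Fact p.Prime] [CharP K p]
    (δ : PiOne (basePoint x Ω))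
    (hfix : ∀ σ : Ω ≃ₐ[K] Ω, galSection x σ * δ * (galSection x σ)⁻¹ = δ)
    (B C : Type u) [CommRing B] [Algebra A B] [Module.Finite A B] [Algebra.Etale A B]
    [CommRing C] [Algebra A C] [Module.Finite A C] [Algebra.Etale A C]
    (f : Fib (basePoint x Ω) B) (g : Fib (basePoint x Ω) C)
    (K' : IntermediateField K Ω) (hf : ∀ b, f.1 b ∈ K') (hf2 : ∀ b, (δ.perm B f).1 b ∈ K')
    (hg : ∀ b, g.1 b ∈ K') (hg2 : δ.perm C g = g) (hsurj : ∀ k : K', ∃ c : C, g.1 c = k)
    (hne : δ.perm B f ≠ f) (β : K') : ∃ u : K', u ^ p - u = β := by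
  obtain ⟨b, hb⟩ : ∃ b, (δ.perm B f).1 b ≠ f.1 b := by
    by_contra h
    push Not at h
    exact hne (Subtype.ext (RingHom.ext h))
  set c : K' := ⟨f.1 b, hf b⟩ with hc
  set c' : K' := ⟨(δ.perm B f).1 b, hf2 b⟩ with hc'
  have hcc : c' - c ≠ 0 := by
    intro h
    apply hb
    exact congrArg Subtype.val (sub_eq_zero.1 h)
  obtain ⟨γ₁, hγ₁⟩ := hsurj c
  obtain ⟨γ₂, hγ₂⟩ := hsurj (β / (c' - c))
  have hincl : (δ.perm (B ⊗[A] C) (f.prod g)).pull
      (Algebra.TensorProduct.includeLeft : B →ₐ[A] B ⊗[A] C) = δ.perm B f := by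
    rw [← δ.natural]
    congr 1
    apply Subtype.ext
    refine RingHom.ext fun b => ?_
    change (f.prod g).1 (b ⊗ₜ 1) = _
    rw [Fib.prod_tmul, map_one, mul_one]
  have hincr : (δ.perm (B ⊗[A] C) (f.prod g)).pull
      (Algebra.TensorProduct.includeRight : C →ₐ[A] B ⊗[A] C) = g := by
    rw [← δ.natural]
    conv_rhs => rw [← hg2]
    congr 1
    apply Subtype.ext
    refine RingHom.ext fun c => ?_
    change (f.prod g).1 (1 ⊗ₜ c) = _
    rw [Fib.prod_tmul, map_one, one_mul]
  have hl : ∀ b : B, (δ.perm (B ⊗[A] C) (f.prod g)).1 (b ⊗ₜ 1) = (δ.perm B f).1 b := fun b =>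
    RingHom.congr_fun (congrArg Subtype.val hincl) b
  have hr : ∀ k : C, (δ.perm (B ⊗[A] C) (f.prod g)).1 (1 ⊗ₜ k) = g.1 k := fun k =>
    RingHom.congr_fun (congrArg Subtype.val hincr) k
  refine as_step x p δ hfix (B ⊗[A] C) (f.prod g) K' ?_
    ((b ⊗ₜ[A] (1 : C) - (1 : B) ⊗ₜ[A] γ₁) * ((1 : B) ⊗ₜ[A] γ₂)) ?_ β ?_
  · intro t
    induction t using TensorProduct.induction_on with
    | zero => rw [map_zero]; exact zero_mem _
    | add y z hy hz => rw [map_add]; exact add_mem hy hz
    | tmul y z => rw [Fib.prod_tmul]; exact mul_mem (hf _) (hg _)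
  · rw [map_mul, map_sub, Fib.prod_tmul, Fib.prod_tmul, map_one, map_one, hγ₁, mul_one, one_mul,
      hc, sub_self, zero_mul]
  · rw [map_mul, map_sub, hl, hr, hr, hγ₁, hγ₂]
    have h1 : ((δ.perm B f).1 b : Ω) - (c : Ω) = ((c' - c : K') : Ω) := by
      rw [hc']; rfl
    rw [h1]
    have h2 : (c' - c) * (β / (c' - c)) = β := mul_div_cancel₀ _ hcc
    exact congrArg Subtype.val h2

theorem eq_one_of_fixed [IsSepClosure K Ω] (p : ℕ) [hp : Fact p.Prime] [CharP K p]
    (hAS : ∀ K' : IntermediateField K Ω, FiniteDimensional K K' →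
      ∃ β : K', ∀ u : K', u ^ p - u ≠ β)
    (δ : PiOne (basePoint x Ω))
    (hker : ∀ (K' : IntermediateField K Ω) [FiniteDimensional K K'],
      δ.perm (A ⊗[K] K') (constPt x K') = constPt x K')
    (hfix : ∀ σ : Ω ≃ₐ[K] Ω, galSection x σ * δ * (galSection x σ)⁻¹ = δ) : δ = 1 := by
  apply PiOne.ext
  funext B _ _ _ _
  refine Equiv.ext fun f => ?_
  rw [PiOne.one_perm, Equiv.Perm.one_apply]
  by_contra hne
  have halg : Algebra.IsAlgebraic K Ω := inferInstance
  obtain ⟨K', hK', hf, hf2⟩ := Fib.exists_finite x f (δ.perm B f)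
  obtain ⟨β, hβ⟩ := hAS K' hK'
  obtain ⟨u, hu⟩ := exists_as_of_ne x p δ hfix B (A ⊗[K] K') f (constPt x K') K' hf hf2 (by
    intro t
    induction t using TensorProduct.induction_on with
    | zero => rw [map_zero]; exact zero_mem _
    | add y z hy hz => rw [map_add]; exact add_mem hy hz
    | tmul y z =>
      rw [constPt_tmul]; exact mul_mem (IntermediateField.algebraMap_mem _ _) z.2)
    (hker K') (fun k => ⟨1 ⊗ₜ k, by rw [constPt_tmul, map_one, map_one, one_mul]⟩) hne β
  exact hβ u hu

end main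

end EtalePi
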